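import Pool.Agent.H37.CTL.Stmts

/-!
# Row T54 of the board `ctl`: the estimates in case (II)
-/

set_option autoImplicit false

namespace Pool.CND

open Finset Polynomial

namespace T54

variable {k L : Type} [Field k] [Field L] [Algebra k L] (P : Place k L)

theorem ge_sub_comm {x y : L} {n : ℤ} (h : P.Ge (x - y) n) : P.Ge (y - x) n := by
  have h1 := P.ge_neg h
  rwa [neg_sub] at h1

/-- products of one-units -/
theorem u_mul {x y : L} {n : ℤ} (hn : 0 ≤ n) (hx : P.Ge (x - 1) n) (hy : P.Ge (y - 1) n) :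
    P.Ge (x * y - 1) n := by
  have h1 : x * y - 1 = (x - 1) * (y - 1) + (x - 1) + (y - 1) := by ring
  rw [h1]
  exact P.ge_add (P.ge_add (P.ge_mono (P.ge_mul hx hy) (by omega)) hx) hy

theorem u_one (n : ℤ) : P.Ge ((1 : L) - 1) n := Or.inl (sub_self 1)

theorem u_pow {x : L} {n : ℤ} (hn : 0 ≤ n) (hx : P.Ge (x - 1) n) (m : ℕ) :
    P.Ge (x ^ m - 1) n := by
  induction m with
  | zero => rw [pow_zero]; exact u_one P n
  | succ m ih => rw [pow_succ]; exact u_mul P hn ih hx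

/-- one-units are units -/
theorem u_ord {x : L} {n : ℤ} (hn : 1 ≤ n) (hx : P.Ge (x - 1) n) : x ≠ 0 ∧ P.ord x = 0 := by
  have h1 := P.ord_add_of_lt (x := 1) (y := x - 1) one_ne_zero
    (by rw [P.ord_one]; exact P.ge_mono hx (by omega))
  rw [P.ord_one] at h1
  have h2 : 1 + (x - 1) = x := by ring
  rwa [h2] at h1

theorem u_inv {x : L} {n : ℤ} (hn : 1 ≤ n) (hx : P.Ge (x - 1) n) : P.Ge (x⁻¹ - 1) n := by
  obtain ⟨h0, h1⟩ := u_ord P hn hx
  have h2 : x⁻¹ - 1 = -((x - 1) * x⁻¹) := by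
    field_simp
    ring
  rw [h2]
  have h3 : P.Ge x⁻¹ 0 := Or.inr (by rw [P.ord_inv h0, h1]; simp)
  exact P.ge_neg (P.ge_mono (P.ge_mul hx h3) (by omega))

/-- roots of one-units -/
theorem root {p : ℕ} [Fact p.Prime] [CharP L p] (f q : ℕ) (hq : q = p ^ f) (hq2 : 2 ≤ q) (n : ℤ)
    (hn : 1 ≤ n) (r w : L) (c : k) (hc : c ≠ 0)
    (hr : r ^ (q - 1) = algebraMap k L c * w) (hw : P.Ge (w - 1) n) :
    ∃ (γ : k) (δ : L), γ ≠ 0 ∧ γ ^ (q - 1) = c ∧ r = algebraMap k L γ * (1 + δ) ∧ P.Ge δ n ∧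
      P.Ge (δ + (w - 1)) (2 * n) := by
  obtain ⟨hw0, hw1⟩ := u_ord P hn hw
  have hinj := (algebraMap k L).injective
  have hc' : algebraMap k L c ≠ 0 := by
    rw [Ne, map_eq_zero_iff _ hinj]; exact hc
  have hr0 : r ≠ 0 := by
    rintro rfl
    rw [zero_pow (by omega)] at hr
    exact mul_ne_zero hc' hw0 hr.symm
  have hro : P.ord r = 0 := by
    have h1 := P.ord_pow hr0 (q - 1)
    rw [hr, P.ord_mul _ _ hc' hw0, P.ord_const c hc, hw1] at h1
    have h2 : ((q - 1 : ℕ) : ℤ) ≠ 0 := by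
      have : q - 1 ≠ 0 := by omega
      exact_mod_cast this
    have h3 : ((q - 1 : ℕ) : ℤ) * P.ord r = 0 := by linarith
    rcases mul_eq_zero.1 h3 with h | h
    · exact absurd h h2
    · exact h
  obtain ⟨γ, hγ⟩ := P.residue r hr0 hro.ge
  have hγ1 : P.Ge (r - algebraMap k L γ) 1 := by
    rcases hγ with h | h
    · exact Or.inl (by rw [h, sub_self])
    · exact Or.inr h
  have hγ0 : γ ≠ 0 := by
    rintro rfl
    rw [map_zero, sub_zero] at hγ1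
    have := (P.ge_iff hr0 1).1 hγ1
    omega
  have hγ' : algebraMap k L γ ≠ 0 := by
    rw [Ne, map_eq_zero_iff _ hinj]; exact hγ0
  set δ : L := r / algebraMap k L γ - 1 with hδ
  have hrδ : r = algebraMap k L γ * (1 + δ) := by
    rw [hδ]; field_simp; ring
  have hδ1 : P.Ge δ 1 := by
    have h1 : δ = (r - algebraMap k L γ) * (algebraMap k L γ)⁻¹ := by
      rw [hδ]; field_simp
    rw [h1]
    have h3 : P.Ge (algebraMap k L γ)⁻¹ 0 :=
      Or.inr (by rw [P.ord_inv hγ', P.ord_const γ hγ0]; simp)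
    exact P.ge_mono (P.ge_mul hγ1 h3) (by omega)
  have h1δ : P.Ge ((1 + δ) - 1) 1 := by
    have : (1 + δ) - 1 = δ := by ring
    rwa [this]
  have h1δ0 := u_ord P le_rfl h1δ
  have hpow : P.Ge ((1 + δ) ^ (q - 1) - 1) 1 := u_pow P (by norm_num) h1δ _
  -- the constant
  have hγc : γ ^ (q - 1) = c := by
    by_contra hne
    have h1 : γ ^ (q - 1) - c ≠ 0 := sub_ne_zero.2 hne
    have h2 : P.Ge (algebraMap k L (γ ^ (q - 1) - c)) 1 := by
      have e1 : algebraMap k L (γ ^ (q - 1) - c) =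
          -(algebraMap k L (γ ^ (q - 1)) * ((1 + δ) ^ (q - 1) - 1)) +
            algebraMap k L c * (w - 1) := by
        have h3 : r ^ (q - 1) = algebraMap k L (γ ^ (q - 1)) * (1 + δ) ^ (q - 1) := by
          rw [hrδ, mul_pow, map_pow]
        rw [map_sub]
        linear_combination hr - h3
      rw [e1]
      refine P.ge_add (P.ge_neg (P.ge_mono (P.ge_mul (P.ge_const _) hpow) (by omega)))
        (P.ge_mono (P.ge_mul (P.ge_const _) hw) (by omega))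
    have h3 := (P.ge_iff (by rw [Ne, map_eq_zero_iff _ hinj]; exact h1) 1).1 h2
    rw [P.ord_const _ h1] at h3
    omega
  have hwδ : (1 + δ) ^ (q - 1) = w := by
    have h3 : r ^ (q - 1) = algebraMap k L (γ ^ (q - 1)) * (1 + δ) ^ (q - 1) := by
      rw [hrδ, mul_pow, map_pow]
    rw [hr, hγc] at h3
    exact (mul_left_cancel₀ hc' h3).symm
  have hq1 : q - 1 + 1 = q := by omega
  have hfro : (1 + δ) ^ q = 1 + δ ^ q := by
    rw [hq, add_pow_char_pow, one_pow]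
  have hmain : 1 + δ ^ q = (1 + δ) * w := by
    rw [← hfro, ← hwδ]
    rw [← pow_succ', hq1]
  have hδq : δ ^ q = δ ^ (q - 1) * δ := by rw [← pow_succ, hq1]
  have hδq1 : P.Ge (δ ^ (q - 1)) 1 := by
    have h1 : δ ^ (q - 1) = δ ^ (q - 2) * δ := by
      rw [← pow_succ]; congr 1; omega
    rw [h1]
    have h2 : P.Ge (δ ^ (q - 2)) 0 := by
      by_cases h0 : δ = 0
      · by_cases h4 : q - 2 = 0
        · rw [h4, pow_zero]; exact Or.inr P.ord_one.ge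
        · rw [h0, zero_pow h4]; exact P.ge_zero 0
      · refine Or.inr ?_
        rw [P.ord_pow h0]
        have := (P.ge_iff h0 1).1 hδ1
        positivity
    exact P.ge_mono (P.ge_mul h2 hδ1) (by omega)
  have hfac : δ * (w - δ ^ (q - 1)) = -(w - 1) := by
    linear_combination -hmain + hδq
  have hw1' : P.Ge ((w - δ ^ (q - 1)) - 1) 1 := by
    have e1 : (w - δ ^ (q - 1)) - 1 = (w - 1) - δ ^ (q - 1) := by ring
    rw [e1]
    exact P.ge_sub (P.ge_mono hw (by omega)) hδq1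
  obtain ⟨hf0, hf1⟩ := u_ord P le_rfl hw1'
  have hδn : P.Ge δ n := by
    have e1 : δ = -(w - 1) * (w - δ ^ (q - 1))⁻¹ := by
      rw [← hfac, mul_assoc, mul_inv_cancel₀ hf0, mul_one]
    rw [e1]
    have h3 : P.Ge (w - δ ^ (q - 1))⁻¹ 0 := Or.inr (by rw [P.ord_inv hf0, hf1]; simp)
    exact P.ge_mono (P.ge_mul (P.ge_neg hw) h3) (by omega)
  refine ⟨γ, δ, hγ0, hγc, hrδ, hδn, ?_⟩
  have e2 : δ + (w - 1) = δ ^ (q - 2) * (δ * δ) - δ * (w - 1) := by
    have h1 : δ ^ (q - 2) * (δ * δ) = δ ^ q := by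
      rw [← pow_two, ← pow_add]; congr 1; omega
    rw [h1]
    linear_combination -hmain
  rw [e2]
  have h2 : P.Ge (δ ^ (q - 2)) 0 := by
    by_cases h0 : δ = 0
    · by_cases h4 : q - 2 = 0
      · rw [h4, pow_zero]; exact Or.inr P.ord_one.ge
      · rw [h0, zero_pow h4]; exact P.ge_zero 0
    · refine Or.inr ?_
      rw [P.ord_pow h0]
      have := (P.ge_iff h0 1).1 hδ1
      positivity
  exact P.ge_sub (P.ge_mono (P.ge_mul h2 (P.ge_mul hδn hδn)) (by omega))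
    (P.ge_mono (P.ge_mul hδn hw) (by omega))

/-- the estimates, with `q = r + 2` -/
theorem core [IsAlgClosed k] {p : ℕ} [Fact p.Prime] [CharP L p] [CharP k p] (f q r : ℕ)
    (hq : q = p ^ f)
    (hr : q = r + 2) (hr1 : 1 ≤ r) (ν : ℕ) (hν : ν = r ^ 3 + 6 * r ^ 2 + 11 * r + 4)
    (hev : Even ν) (t x0 S₂ S₃ Q₃ x y D : L) (e : ℤ) (he : 1 ≤ e) (ht : t ≠ 0)
    (hte : P.ord t = -e) (hx0 : x0 ≠ 0) (hS : S₂ ≠ 0) (hx : x = x0 ^ (r + 1))
    (hy : y = S₂ ^ (r + 1)) (hxo : P.ord x = (r ^ 2 + 4 * r + 2) * e) (hyo : P.ord y = -(r * e))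
    (hD : D = t ^ (r ^ 2 + 3 * r + 2) - 2 * t ^ (r ^ 2 + 3 * r + 1) + x ^ q ^ 2 + y ^ q)
    (h1 : x * (-t ^ (r ^ 2 + 4 * r + 2) + (t ^ (r ^ 2 + 3 * r + 2) -
      2 * t ^ (r ^ 2 + 3 * r + 1) + x ^ q ^ 2) * x ^ q) = -1)
    (h2 : x * y * D = 1) (h3 : Q₃ ^ (r + 1) = -D) (hQ : Q₃ = S₃ ^ q - y * S₃) :
    ∃ (η α : k) (h z : L), η ≠ 0 ∧ α ≠ 0 ∧
    h = algebraMap k L η * t / S₂ ∧ z = S₃ / S₂ - h ∧ h ≠ 0 ∧
    ((q : ℤ) - 1) * P.ord h = P.ord t ∧ P.Ge (z ^ q - z + h) (P.ord h - P.ord t) ∧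
    P.Ge (S₂ / x0 ^ q - algebraMap k L α * h ^ ν) ((ν : ℤ) * P.ord h - P.ord t) := by
  have hinj := (algebraMap k L).injective
  have hr1' : (1 : ℤ) ≤ r := by exact_mod_cast hr1
  have hre : 0 ≤ (r : ℤ) * e := by positivity
  have hx' : x ≠ 0 := by rw [hx]; exact pow_ne_zero _ hx0
  have hy' : y ≠ 0 := by rw [hy]; exact pow_ne_zero _ hS
  have h2c : P.Ge (2 : L) 0 := by
    have := P.ge_const (2 : k)
    rwa [map_ofNat] at this
  have hqZ : (q : ℤ) = r + 2 := by rw [hr]; push_cast; ring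
  have hti : P.Ge t⁻¹ e := Or.inr (by rw [P.ord_inv ht, hte, neg_neg])
  have htpow : ∀ m : ℕ, P.Ge (t ^ m) (-(m * e)) := fun m =>
    Or.inr (by rw [P.ord_pow ht, hte]; linarith [mul_neg (m : ℤ) e])
  have htpi : ∀ m : ℕ, P.Ge (t ^ m)⁻¹ (m * e) := fun m =>
    Or.inr (by rw [P.ord_inv (pow_ne_zero m ht), P.ord_pow ht, hte]; linarith [mul_neg (m : ℤ) e])
  have hxge : ∀ m : ℕ, P.Ge (x ^ m) (m * ((r ^ 2 + 4 * r + 2) * e)) := fun m =>
    Or.inr (by rw [P.ord_pow hx', hxo])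
  have hx0' : ∀ m : ℕ, P.Ge (x ^ m) 0 := fun m => P.ge_mono (hxge m) (by positivity)
  -- D
  have hwD2 : P.Ge (D / t ^ (r ^ 2 + 3 * r + 2) - 1 + 2 * t⁻¹) (2 * e) := by
    have e1 : D / t ^ (r ^ 2 + 3 * r + 2) - 1 + 2 * t⁻¹ =
        x ^ q ^ 2 * (t ^ (r ^ 2 + 3 * r + 2))⁻¹ + y ^ q * (t ^ (r ^ 2 + 3 * r + 2))⁻¹ := by
      rw [hD]
      have e2 : t ^ (r ^ 2 + 3 * r + 2) = t ^ (r ^ 2 + 3 * r + 1) * t := by rw [← pow_succ]
      have e3 : t ^ (r ^ 2 + 3 * r + 1) ≠ 0 := pow_ne_zero _ ht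
      rw [e2]
      field_simp
      ring
    rw [e1]
    refine P.ge_add (P.ge_mono (P.ge_mul (hx0' _) (htpi _)) ?_)
      (P.ge_mono (P.ge_mul (P.ge_ord _) (htpi _)) ?_)
    · push_cast
      nlinarith [hre]
    · rw [P.ord_pow hy', hyo, hqZ]
      push_cast
      nlinarith [hre]
  have hwD : P.Ge (D / t ^ (r ^ 2 + 3 * r + 2) - 1) e := by
    have e1 : D / t ^ (r ^ 2 + 3 * r + 2) - 1 =
        (D / t ^ (r ^ 2 + 3 * r + 2) - 1 + 2 * t⁻¹) - 2 * t⁻¹ := by ring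
    rw [e1]
    exact P.ge_sub (P.ge_mono hwD2 (by omega)) (P.ge_mono (P.ge_mul h2c hti) (by omega))
  -- x
  have hwx : P.Ge (x * t ^ (r ^ 2 + 4 * r + 2) - 1) e := by
    have e1 : x * t ^ (r ^ 2 + 4 * r + 2) - 1 = (t ^ (r ^ 2 + 3 * r + 2) -
      2 * t ^ (r ^ 2 + 3 * r + 1) + x ^ q ^ 2) * x ^ (q + 1) := by
      rw [pow_succ]
      linear_combination -h1
    rw [e1]
    have e2 : P.Ge (t ^ (r ^ 2 + 3 * r + 2) - 2 * t ^ (r ^ 2 + 3 * r + 1) + x ^ q ^ 2)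
        (-((r ^ 2 + 3 * r + 2 : ℕ) * e)) := by
      refine P.ge_add (P.ge_sub (htpow _) (P.ge_mono (P.ge_mul h2c (htpow _)) ?_))
        (P.ge_mono (hx0' _) ?_)
      · push_cast
        nlinarith
      · have : 0 ≤ ((r ^ 2 + 3 * r + 2 : ℕ) : ℤ) * e := by positivity
        omega
    refine P.ge_mono (P.ge_mul e2 (hxge (q + 1))) ?_
    push_cast
    rw [hqZ]
    have h4 : 0 ≤ (r : ℤ) ^ 3 * e := by positivity
    have h5 : 0 ≤ (r : ℤ) ^ 2 * e := by positivity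
    nlinarith
  -- y
  set wD : L := D / t ^ (r ^ 2 + 3 * r + 2) with hwDd
  set wx : L := x * t ^ (r ^ 2 + 4 * r + 2) with hwxd
  obtain ⟨hwx0, hwx1⟩ := u_ord P he hwx
  obtain ⟨hwD0, hwD1⟩ := u_ord P he hwD
  have hD0 : D ≠ 0 := by
    rintro rfl
    rw [mul_zero] at h2
    exact zero_ne_one h2
  have hyw : y = (wx * wD)⁻¹ * t ^ r := by
    have e1 : wx * wD = x * D * t ^ r := by
      rw [hwDd, hwxd]
      have e3 : t ^ (r ^ 2 + 4 * r + 2) = t ^ (r ^ 2 + 3 * r + 2) * t ^ r := by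
        rw [← pow_add]; congr 1; ring
      rw [e3]
      field_simp
    have e2 : x * D ≠ 0 := mul_ne_zero hx' hD0
    rw [e1]
    field_simp
    linear_combination h2
  set wy : L := (wx * wD)⁻¹ with hwyd
  have hwy : P.Ge (wy - 1) e := u_inv P he (u_mul P (by omega) hwx hwD)
  obtain ⟨hwy0, hwy1⟩ := u_ord P he hwy
  -- root of Q₃
  have hQr : (Q₃ / t ^ q) ^ (q - 1) = algebraMap k L (-1) * wD := by
    have e1 : q - 1 = r + 1 := by omega
    rw [e1, div_pow, h3, map_neg, map_one, hwDd]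
    have e2 : (t ^ q) ^ (r + 1) = t ^ (r ^ 2 + 3 * r + 2) := by
      rw [← pow_mul]; congr 1; rw [hr]; ring
    rw [e2]
    ring
  obtain ⟨ζ, ε, hζ0, hζ1, hQε, hε, hε2⟩ := root P f q hq (by omega) e he (Q₃ / t ^ q) wD (-1)
    (by simp) hQr hwD
  have hε3 : P.Ge (ε - 2 * t⁻¹) (2 * e) := by
    have e1 : ε - 2 * t⁻¹ = (ε + (wD - 1)) - (wD - 1 + 2 * t⁻¹) := by ring
    rw [e1]
    exact P.ge_sub hε2 hwD2
  obtain ⟨η, hη⟩ := IsAlgClosed.exists_pow_nat_eq ζ (n := q) (by omega)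
  have hη0 : η ≠ 0 := by
    rintro rfl
    rw [zero_pow (by omega)] at hη
    exact hζ0 hη.symm
  have hη' : algebraMap k L η ≠ 0 := by
    rw [Ne, map_eq_zero_iff _ hinj]; exact hη0
  have hη1 : η ^ (q - 1) = -1 := by
    have e1 : (η ^ (q - 1) + 1) ^ q = 0 := by
      have e2 : (η ^ (q - 1) + 1) ^ q = (η ^ (q - 1)) ^ q + 1 := by
        rw [hq, add_pow_char_pow, one_pow]
      rw [e2, ← pow_mul, mul_comm, pow_mul, hη, hζ1]
      ring
    have e3 := pow_eq_zero_iff (n := q) (by omega) |>.1 e1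
    linear_combination e3
  set h : L := algebraMap k L η * t / S₂ with hh
  have hh0 : h ≠ 0 := div_ne_zero (mul_ne_zero hη' ht) hS
  have hq1 : q - 1 = r + 1 := by omega
  have hhp : h ^ (q - 1) = -(t * wy⁻¹) := by
    rw [hh, div_pow, mul_pow, ← map_pow, hη1, map_neg, map_one, hq1, ← hy, hyw]
    have e3 : t ^ (r + 1) = t ^ r * t := pow_succ _ _
    have e4 : t ^ r ≠ 0 := pow_ne_zero _ ht
    rw [e3]
    field_simp
  have hhord : ((q : ℤ) - 1) * P.ord h = P.ord t := by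
    have e1 := P.ord_pow hh0 (q - 1)
    rw [hhp, P.ord_neg, P.ord_mul _ _ ht (inv_ne_zero hwy0), P.ord_inv hwy0, hwy1, hq1] at e1
    push_cast at e1
    rw [hqZ]
    linarith
  set z : L := S₃ / S₂ - h with hz
  have hhq : h ^ q = algebraMap k L ζ * t ^ q / S₂ ^ q := by
    rw [hh, div_pow, mul_pow, ← map_pow, hη]
  have hq1' : q = r + 1 + 1 := by omega
  have hz1 : z ^ q - z + h = h * (h ^ (q - 1) * ε + 2) := by
    have e1 : z ^ q = (S₃ / S₂) ^ q - h ^ q := by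
      rw [hz, hq, sub_pow_char_pow]
    have e2 : (S₃ / S₂) ^ q - S₃ / S₂ = h ^ q * (1 + ε) := by
      have e4 : Q₃ = algebraMap k L ζ * (1 + ε) * t ^ q := by
        rw [← hQε]
        field_simp
      have e5 : (S₃ / S₂) ^ q - S₃ / S₂ = Q₃ / S₂ ^ q := by
        rw [hQ, hy, div_pow]
        have e6 : S₂ ^ q = S₂ ^ (r + 1) * S₂ := by rw [← pow_succ, ← hq1']
        rw [e6]
        field_simp
      rw [e5, hhq, e4]
      ring
    have e3 : h ^ q = h * h ^ (q - 1) := by rw [← pow_succ']; congr 1; omega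
    rw [e1]
    have e7 : S₃ / S₂ = z + h := by rw [hz]; ring
    linear_combination e2 + ε * e3 + e7
  have hz2 : P.Ge (z ^ q - z + h) (P.ord h - P.ord t) := by
    rw [hz1, hte]
    have e1 : h ^ (q - 1) * ε + 2 = -(t * wy⁻¹ * (ε - 2 * t⁻¹)) - 2 * (wy⁻¹ - 1) := by
      rw [hhp]
      field_simp
      ring
    have e2 : P.Ge (h ^ (q - 1) * ε + 2) e := by
      rw [e1]
      have e3 : P.Ge wy⁻¹ 0 := Or.inr (by rw [P.ord_inv hwy0, hwy1]; simp)
      have e4 : P.Ge t (-e) := Or.inr hte.ge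
      refine P.ge_sub (P.ge_neg (P.ge_mono (P.ge_mul (P.ge_mul e4 e3) hε3) (by omega)))
        (P.ge_mono (P.ge_mul h2c (u_inv P he hwy)) (by omega))
    exact P.ge_mono (P.ge_mul (P.ge_ord h) e2) (by omega)
  -- last part
  have hhν : (h ^ ν) ^ (q - 1) = t ^ ν * (wy⁻¹) ^ ν := by
    rw [← pow_mul, mul_comm, pow_mul, hhp, hev.neg_pow, mul_pow]
  have hA1 : (S₂ / x0 ^ q / h ^ ν) ^ (q - 1) =
      algebraMap k L 1 * (wy * (wx⁻¹) ^ q * wy ^ ν) := by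
    rw [div_pow, div_pow, hhν, map_one, one_mul, hq1, ← hy, ← pow_mul, mul_comm q (r + 1), pow_mul,
      ← hx, hyw]
    have e1 : x = wx * (t ^ (r ^ 2 + 4 * r + 2))⁻¹ := by
      rw [hwxd]; field_simp
    have e2 : (t ^ (r ^ 2 + 4 * r + 2)) ^ q * t ^ r = t ^ ν := by
      rw [← pow_mul, ← pow_add]
      congr 1
      rw [hν, hr]
      ring
    have hwxq : wx ^ q ≠ 0 := pow_ne_zero q hwx0
    rw [e1, mul_pow, ← e2]
    simp only [inv_pow]
    field_simp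
  obtain ⟨α, δ, hα0, -, hαδ, hδ, -⟩ := root P f q hq (by omega) e he (S₂ / x0 ^ q / h ^ ν)
    (wy * (wx⁻¹) ^ q * wy ^ ν) 1 one_ne_zero hA1
    (u_mul P (by omega) (u_mul P (by omega) hwy (u_pow P (by omega) (u_inv P he hwx) q))
      (u_pow P (by omega) hwy ν))
  refine ⟨η, α, h, z, hη0, hα0, rfl, rfl, hh0, hhord, hz2, ?_⟩
  have e1 : S₂ / x0 ^ q - algebraMap k L α * h ^ ν = algebraMap k L α * h ^ ν * δ := by
    have e2 : S₂ / x0 ^ q = S₂ / x0 ^ q / h ^ ν * h ^ ν := by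
      rw [div_mul_cancel₀ _ (pow_ne_zero ν hh0)]
    rw [e2, hαδ]
    ring
  rw [e1]
  refine P.ge_mono (P.ge_mul (P.ge_mul (P.ge_const α) (P.ge_ord _)) hδ) ?_
  rw [P.ord_pow hh0, hte]
  omega

end T54

theorem t54_thm (hT53 : S_T53) : S_T54 := by
  intro p k F L _ _ _ _ _ _ f q t X S₂ S₃ P hp hp2 hchar hf hq hF hS3 ht0 hX0 hX1 hX2 hS₂ hS₃
  have : Fact p.Prime := ⟨hp⟩
  have : CharP L p := charP_of_injective_algebraMap (algebraMap k L).injective p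
  have hp3 : 3 ≤ p := by
    have := hp.two_le
    omega
  have hq3 : 3 ≤ q := by
    rw [hq]
    calc 3 ≤ p := hp3
      _ = p ^ 1 := (pow_one p).symm
      _ ≤ p ^ f := Nat.pow_le_pow_right (by omega) hf
  have hodd : Odd q := by
    rw [hq]
    exact (hp.odd_of_ne_two hp2).pow
  obtain ⟨r, hr⟩ : ∃ r, q = r + 2 := ⟨q - 2, by omega⟩
  have hr1 : 1 ≤ r := by omega
  obtain ⟨hx0, hS0, hQ0, e1, e2, e3⟩ := hT53 p k F L f q _ _ t X S₂ S₃ _ hp hchar hf hq hF hS3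
    hS₂ hS₃ rfl
  have hq1 : q - 1 = r + 1 := by omega
  have n1 : q ^ 2 - q = r ^ 2 + 3 * r + 2 := by
    have : q ^ 2 = (r ^ 2 + 3 * r + 2) + q := by rw [hr]; ring
    omega
  have n2 : q ^ 2 - q - 1 = r ^ 2 + 3 * r + 1 := by omega
  have n3 : q ^ 2 - 2 = r ^ 2 + 4 * r + 2 := by
    have : q ^ 2 = (r ^ 2 + 4 * r + 2) + 2 := by rw [hr]; ring
    omega
  have n4 : q ^ 3 - q - 2 = r ^ 3 + 6 * r ^ 2 + 11 * r + 4 := by
    have : q ^ 3 = (r ^ 3 + 6 * r ^ 2 + 11 * r + 4) + q + 2 := by rw [hr]; ring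
    omega
  have ht : t ≠ 0 := by
    rintro rfl
    exact hS3.tr isAlgebraic_zero
  have hqZ : (q : ℤ) = r + 2 := by rw [hr]; push_cast; ring
  have hr1' : (1 : ℤ) ≤ r := by exact_mod_cast hr1
  have hX1' : X 1 ≠ 0 := by
    intro h0
    apply hS0
    rw [hS₂, h0, zero_pow (by omega)]
    ring
  have hxo : P.ord (X 0 ^ (r + 1)) = (r ^ 2 + 4 * r + 2) * (-P.ord t) := by
    rw [P.ord_pow hx0]
    push_cast
    rw [hqZ] at hX0
    linarith
  have hS2o : P.ord S₂ = q * P.ord (X 1) := by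
    have e4 : S₂ = X 1 ^ q + (-(X 0 ^ (r + 1) * X 1)) := by
      rw [hS₂, hq1]; ring
    have e5 := P.ord_add_of_lt (x := X 1 ^ q) (y := -(X 0 ^ (r + 1) * X 1)) (pow_ne_zero q hX1') (by
      refine P.ge_neg (Or.inr ?_)
      rw [P.ord_pow hX1', P.ord_mul _ _ (pow_ne_zero _ hx0) hX1', hxo]
      rw [hqZ] at hX1 ⊢
      have h6 : (r : ℤ) * P.ord t ≤ 0 := by nlinarith
      have h7 : (r + 2 : ℤ) * ((r + 1) * P.ord (X 1)) ≤ 0 := by
        have : (r + 2 : ℤ) * ((r + 1) * P.ord (X 1)) = r * P.ord t := by linarith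
        rw [this]
        exact h6
      have h8 : (r + 1 : ℤ) * P.ord (X 1) ≤ 0 := by
        by_contra hc
        rw [not_le] at hc
        have : 0 < (r + 2 : ℤ) * ((r + 1) * P.ord (X 1)) := by positivity
        omega
      nlinarith)
    rw [e4, e5.2, P.ord_pow hX1']
  have hyo : P.ord (S₂ ^ (r + 1)) = -(r * (-P.ord t)) := by
    rw [P.ord_pow hS0, hS2o]
    push_cast
    rw [hqZ] at hX1 ⊢
    linarith
  simp only [map_sub, map_neg, map_mul, map_pow, aeval_X, map_ofNat, hq1, n1, n3]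
    at e1 e2 e3
  have hev : Even (q ^ 3 - q - 2) := by
    have h4 : Even (q ^ 3 - q) := by
      rw [Nat.even_sub (Nat.le_self_pow (by norm_num) q)]
      have := hodd.pow (n := 3)
      rw [← Nat.not_odd_iff_even, ← Nat.not_odd_iff_even]
      tauto
    have h5 : 2 ≤ q ^ 3 - q := by omega
    rw [Nat.even_sub h5]
    simp [h4]
  have := T54.core P f q r hq hr hr1 (q ^ 3 - q - 2) n4 hev t (X 0) S₂ S₃
    (S₃ ^ q - S₂ ^ (q - 1) * S₃) (X 0 ^ (r + 1)) (S₂ ^ (r + 1)) _ (-P.ord t) (by omega) ht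
    (by ring) hx0 hS0 rfl rfl hxo hyo rfl e1 e2 (by rw [hq1]; exact e3) (by rw [hq1])
  exact this

end Pool.CND
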